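import Pool.Agent.Q187.RK.Final

/-!
# The Beilinson-Bloch rank formula and the action of correspondences on cycles

`CH^m_0(X)` is the group of homologically trivial cycles of codimension `m` (with rational
coefficients), and `e X m` is the order of vanishing of `L(H^(2m-1)(X), s)` at `s = m`. We show that
the numerical formula `dim CH^m_0(X) = e X m` for all products of varieties with only algebraic
cohomology outside the middle degree (curves, complete intersections, ...) has strong motivic
consequences: `CH^m_0` is then a functor of the motive `h^(2m-1)`, for all the varieties dominated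
by such products.
-/

open CategoryTheory AlgebraicGeometry

universe u v w

namespace Pool.Agent.Results.MP_0b9e0b_ag.ActThroughCohomology

open Pool.Agent.H914 Pool.Agent.H914.VarClass Pool.Agent.H914.VarClass.Obj Pool.Agent.W492.BB
  Pool.Agent.TH133 Pool.Agent.Q187.AJS Pool.Agent.Q187.RK

/-- **The rank formula of Beilinson and Bloch forces correspondences to act through cohomology.**
Let `C` be the Chow theory with rational coefficients and `H` a Weil cohomology theory on a class of
smooth projective varieties over a field `k`, closed under products and containing a projective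
line `L` (a curve with `Δ = o × L + L × o`). Let `e` be a function on motives and codimensions with
the formal properties of `e X p m = ord_{s=m} L(p_* H^(2m-1)(X), s)` for a global field `k`. Let `𝓒`
be the class of all products of varieties `B` such that `H^l(B)` is spanned by classes of
algebraic cycles for all `l ≠ dim B` (curves, complete intersections, ...), and `𝓓` the class of
all varieties dominated by members of `𝓒` (abelian varieties, ...).

1. The formula `dim CH^m_0(X) = e X m` holds for all `X` in `𝓒` and all `m` if and only if:
  * every correspondence (of any degree) between members `X`, `Y` of `𝓓` which acts as zero on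
    `H^(2m-1)(X)` acts as zero on `CH^m_0(X)`, for all `m`; and
  * the formula holds in codimension `m` for the motives `(B_1, b_1) ⊗ ⋯ ⊗ (B_r, b_r)` of weight
    `2 m - 1` given by the middle degrees of the factors.
2. In this case `CH^m_0(X)` is finite-dimensional for all `X` in `𝓓` and all `m`. -/
theorem result {k : Type u} [Field k] {𝒱 : VarClass k} {C : TheoryData.{u, v, 0} 𝒱 ℚ}
    [IsChowProj C] {K : Type w} [Field K] {H : WeilTheoryData.{u, v, w} C K} [IsWeilProj H]
    {e : ∀ X : 𝒱.Obj, C.A (X.prod X) → ℤ → ℤ} (he : IsOrder C H e)
    (hL : ∃ (L : 𝒱.Obj) (o : C.A L), L.dim = 1 ∧ DegreeOne C o ∧ odd C o = 0) :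
    ((∀ (X : 𝒱.Obj) (m : ℕ), IsProd C H X → RankFormula C H e (diag C X) m) ↔
      (∀ X Y : 𝒱.Obj, Dominated C (IsProd C H) X → Dominated C (IsProd C H) Y →
        ∀ (m l : ℕ) (Γ : C.A (X.prod Y)), Maps C m l Γ → Kills H Γ (2 * m - 1) →
          ∀ z, C.Deg m z → Triv C H z → C.act Γ z = 0) ∧
      (∀ (P : 𝒱.Obj) (p : C.A (P.prod P)) (m : ℕ), IsPrim C H P p → P.dim + 1 = 2 * m →
        RankFormula C H e p m)) ∧
    ((∀ (X : 𝒱.Obj) (m : ℕ), IsProd C H X → RankFormula C H e (diag C X) m) →
      ∀ (X : 𝒱.Obj) (m : ℕ), Dominated C (IsProd C H) X →
        Module.Finite ℚ (homTriv C H (diag C X) m)) :=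
  act_through_cohomology he hL

end Pool.Agent.Results.MP_0b9e0b_ag.ActThroughCohomology
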