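import Pool.Agent.Q56.CU.AJ

/-!
# Beilinson and Bloch in codimension two over one function field decides all codimensions over all
function fields

Let `𝒜` be the class of the abelian varieties over the field with `q = p ^ a` elements, or any class
with the properties of it listed in `IsAbelianClass`, and let `B` be one curve over this field with
`H^1(B) ≠ 0`, with function field `F`. The following are equivalent.

1. The Abel-Jacobi map in codimension two is onto for the constant abelian varieties over `F`: for
   all `A` in `𝒜` the homologically trivial cycles of codimension two on `A_F` account for all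
   Tate classes in `H^3(A) ⊗ H^1(B)`.
2. All Tate classes in `H^3(A) ⊗ H^1(B)`, of codimension two on `A × B`, are algebraic, for all `A` in
   `𝒜`.
3. For all varieties whose motive is generated by `𝒜` (abelian varieties, curves, products of curves,
   and so on) rational and numerical equivalence coincide, and the strong Tate conjecture holds, in
   all codimensions.
4. The conjecture of Beilinson and Bloch holds, in all codimensions, for all constant and isotrivial
   varieties generated by `𝒜`, over all function fields with the constant field with `q` elements:
   for all curves `B'`, all `Z` with motive generated by `𝒜` and all finite groups `G` acting on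
   `Z × B' → B'`, for the variety over `F(B') ^ G` with model `(Z × B') / G`.

The proof: relations between Weil numbers. Let `r` be an eigenvalue of the Frobenius endomorphism on
`H^1(B)`. The Tate classes in `H^3(A) ⊗ H^1(B)` come from the relations `z w = y r` between Weil
numbers of weight one, and all multiplicative relations between Weil numbers follow from these, by
contractions with the polarisations of abelian varieties and with the curve `B`.
-/

open Pool.Agent.H914 Pool.Agent.H914.VarClass.Obj Pool.Agent.W492.BB Pool.Agent.TH133
  Pool.Agent.Q56.CP Pool.Agent.Q56.CU CategoryTheory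

universe u v w

namespace Pool.Agent.Results.MP_0b9e0b_ag.CodimensionTwoOneField

/-- **The conjecture of Beilinson and Bloch for the constant abelian varieties over one function
field in codimension two implies it in all codimensions for all isotrivial varieties of abelian type
over all function fields.** -/
theorem result {k : Type u} [Field k] {𝒱 : VarClass k} (C : TheoryData.{u, v, 0} 𝒱 ℚ)
    [IsChowProj C] {K : Type w} [Field K] [CharZero K] [IsAlgClosed K]
    (H : WeilTheoryData.{u, v, w} C K) [IsWeilProj H] (hH : Anticommute H) (p a : ℕ)
    [Fact p.Prime] (ha : 0 < a) (Fr : ∀ X : 𝒱.Obj, X ⟶ X) (hFr : IsFrobTheory H Fr p a)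
    (𝒜 : Set 𝒱.Obj) (hA : IsAbelianClass H Fr (p ^ a) 𝒜) (B : 𝒱.Obj) (β : C.A B)
    (hB : IsBaseCurve H 𝒜 B β) :
    List.TFAE [
      ∀ A ∈ 𝒜, AbelJacobiOnto H Fr (p ^ a) (C.up (snd A B) β) (fun _ : Unit => 𝟙 (A.prod B)) 1,
      ∀ A ∈ 𝒜, TateThreeOne H Fr (p ^ a) A B,
      ∀ Z, IsSumFactor C 𝒜 Z → RatNum H Z ∧ StrongTateFor H Fr (p ^ a) Z,
      ∀ Z B', IsSumFactor C 𝒜 Z → IsSumFactor C 𝒜 B' → B'.dim = 1 →
        ∀ (G : Type) (ρ : G → (Z.prod B' ⟶ Z.prod B')) (β' : C.A B'), C.Deg 1 β' →
          BeilinsonBloch H Fr (p ^ a) (C.up (snd Z B') β') ρ] :=
  main hH hFr ha hA hB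

end Pool.Agent.Results.MP_0b9e0b_ag.CodimensionTwoOneField
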