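import Pool.Agent.Q282.OR.Fin

/-!
# The orders of the `L`-functions of Beilinson and Bloch: exponential decay for complete intersections and their powers

Let `k` be a finite field with `q` elements, `K = k(t_1, ..., t_M)` (for `M = 1` a global field), and `O = k[t_1, ..., t_M]`.
Let `W` be a closed subscheme of a projective space over `O` of relative dimension `D + r`, and `Z` a closed subscheme of `W` of
relative dimension at most `(D - 1) / 2`, given in `W` by forms `h_j` of degrees `e_j`; here `D` is odd. For `a = 1, ..., r` let the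
forms `f_{a,j}` span the forms of degree `d_a` that vanish on `Z`. For polynomials `c = (c_{a,j})` in `O` let `V_c` be the complete
intersection

  `W ∩ {∑_j c_{1,j} f_{1,j} = 0} ∩ ... ∩ {∑_j c_{r,j} f_{r,j} = 0}`,

a variety of dimension `D` over `K` with the model over the open set `U_c = {x : Δ(x, c(x)) ≠ 0}` of the affine space of dimension
`M` over `k`, where `Δ` is a polynomial in the parameters with coefficients in `O` (a multiple of the discriminant of the family).
All complete intersections through `Z` of the given degrees are of this form, and those with coefficients of degree at most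
`N` are the box `{c : deg c_{a,j} ≤ N}`.

Let `α(x, u)` be the eigenvalues of Frobenius on `H^D` of the member with the coefficients `u` over the point `x`, with values in the
extension of `k` of degree `m`, for all `(x, u)` with `Δ(x, u) ≠ 0`; outside the middle degree the cohomology is that of `W` (Lefschetz,
Poincare). This gives the eigenvalues on `H^{2i+1}` of the power `V_c^ν` (Kunneth), and the sums over the points of `U_c` of the
traces are the power sums of the logarithm of the `L`-function of `H^{2i+1}(V_c^ν)`, the function of Beilinson and Bloch for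
the Chow group of codimension `i + 1`:

  `L = ∏ (1 - β q^{-s}) / (∏ (1 - γ q^{-s}) ∏ (1 - β' q^{-s}))`

(Grothendieck), where the `γ` are the eigenvalues on `H_c^{2M}`, of absolute value `q^{M+i+1/2}`, the `β` those on `H_c^j` for odd `j`, of
absolute value at most `q^{M+i}`, and the `β'` those for the other even `j`, at most `q^{M+i-1/2}` (Deligne); for `M = 1` there are no
`β'`, and the order of `L` at the centre `s = i + 1` is the number of the `β` that are `q^{i+1}`. Their number is at most
`B₀ (N + 1)^κ`, with `κ = 1` if `M = 1` (the formula of Grothendieck, Ogg and Shafarevich).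

It is proved, for `e_j + 2 ν ≤ d_a + 1` and all `i`, that members with many zeros near to a given point `q^{M+i} ξ` of the critical circle
(within the distance `q^{M+i} / (N + 1)`, about the mean distance of the zeros) are exponentially rare: for `M = 1` the proportion of the members with at least `R`
such zeros in the box of height `N` is at most `C exp (-c R)`, for all `N` and `R`. In particular (`ξ = 1`) the
proportion of the members for which the order of `L` at the centre is at least `R` is at most `C exp (-c R)`, so the average of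
this order, the rank of the Chow group of homologically trivial cycles by the conjecture of Beilinson and Bloch, and all its
moments are bounded. The second part is the case of the projective space and of a union `Z` of `s ≥ 0` linear subspaces, where no number of
points is assumed; for `s = 0` these are all complete intersections of degrees `d_a ≥ 2 ν - 1`.

Proof. The kernel of Fejér of order `K ≈ N / (2 p)` bounds the number of the zeros by the traces over the points of degree
at most `K`. The values of `c` at any `2 p` closed points of degree at most `K` are independent and uniformly distributed, so the moment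
of order `2 p` of the sum of the traces is that of a sum of independent variables, and it is bounded by an exponential
moment; the mean values are small because the odd moments of the number of points of the members are. The members with poles on the edge
are exponentially rare, because a power sum of boundedly many numbers of absolute value one that are roots of a polynomial with
integer coefficients is not small in every window of bounded length.
-/

set_option autoImplicit false

namespace Pool.Agent.Results.MP_0b9e0b_ag.LargeOrdersAreRare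

open Finset MvPolynomial
open scoped LinearAlgebra.Projectivization

/-- The values of polynomials in `t_1, ..., t_M` with coefficients in `k` at the point `x` with coordinates in the extension `F`. -/
noncomputable def value {k F : Type} [Field k] [Field F] [Algebra k F] {M : ℕ} (x : Fin M → F) : MvPolynomial (Fin M) k →+* F :=
  ((aeval x : MvPolynomial (Fin M) k →ₐ[k] F) : MvPolynomial (Fin M) k →+* F)

/-- The number of the points with coordinates in the field `F` of the closed subscheme of the projective space of dimension `n` over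
`A` that is defined by the forms of the set `S`, for a homomorphism `φ : A → F`. -/
noncomputable def points {A F : Type} [CommRing A] [Field F] {n : ℕ} (φ : A →+* F) (S : Set (MvPolynomial (Fin (n + 1)) A)) : ℕ :=
  Nat.card {P : ℙ F (Fin (n + 1) → F) // ∀ G ∈ S, eval₂ φ P.rep G = 0}

/-- The forms `f j` span the linear system of the hypersurfaces of degree `d` through the scheme `h = 0`: they have degree
`d`, vanish on this scheme (belong to the radical of the ideal), and every form of degree `d` in the ideal is a combination of them. -/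
structure Spans {O : Type} [CommRing O] {n : ℕ} {J ι : Type} [Fintype ι] (h : J → MvPolynomial (Fin (n + 1)) O) (d : ℕ)
    (f : ι → MvPolynomial (Fin (n + 1)) O) : Prop where
  hom : ∀ j, (f j).IsHomogeneous d
  mem : ∀ j, f j ∈ (Ideal.span (Set.range h)).radical
  gen : ∀ G : MvPolynomial (Fin (n + 1)) O, G.IsHomogeneous d → G ∈ Ideal.span (Set.range h) → ∃ c : ι → O, G = ∑ j, C (c j) * f j

/-- The linear form with the coefficients `v`. -/
noncomputable def linear {O : Type} [CommRing O] {n : ℕ} (v : Fin (n + 1) → O) : MvPolynomial (Fin (n + 1)) O := ∑ j, C (v j) * X j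

/-- The forms `f j` span the forms of degree `d` that belong, for every `i`, to the ideal generated by the equations of the `i`-th
linear subspace (so for `s = 0` all forms of degree `d`). -/
def SpansLinear {O : Type} [CommRing O] {n s c : ℕ} (l : Fin s → Fin c → Fin (n + 1) → O) (d : ℕ) {ι : Type} [Fintype ι]
    (f : ι → MvPolynomial (Fin (n + 1)) O) : Prop :=
  (∀ j, (f j).IsHomogeneous d ∧ ∀ i, f j ∈ Ideal.span (Set.range fun a => linear (l i a))) ∧
  ∀ G : MvPolynomial (Fin (n + 1)) O, G.IsHomogeneous d → (∀ i, G ∈ Ideal.span (Set.range fun a => linear (l i a))) →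
    ∃ c : ι → O, G = ∑ j, C (c j) * f j

/-- Over the point `x` the linear equations `l i 0, ..., l i (c - 1)` are independent for every `i`, and the linear subspaces of
codimension `c` that they define for different `i` are different. -/
def AreSubspaces {k F : Type} [Field k] [Field F] [Algebra k F] {M n s c : ℕ} (x : Fin M → F)
    (l : Fin s → Fin c → Fin (n + 1) → MvPolynomial (Fin M) k) : Prop :=
  (∀ i, LinearIndependent F fun a j => value x (l i a j)) ∧
  ∀ i i', i ≠ i' → ∃ y : Fin (n + 1) → F, ¬ ((∀ a, ∑ j, value x (l i a j) * y j = 0) ↔ ∀ a, ∑ j, value x (l i' a j) * y j = 0)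

/-- The number of the points of the member with the coefficients `u` over the point `x`: the solutions of the equations `E` and of
`∑_j u_{a,j} f_{a,j} = 0` for all `a`, at `x`. -/
noncomputable def memberPoints {k F : Type} [Field k] [Field F] [Algebra k F] {M n r : ℕ} {ν : Fin r → ℕ}
    (E : Set (MvPolynomial (Fin (n + 1)) (MvPolynomial (Fin M) k)))
    (f : (a : Fin r) → Fin (ν a) → MvPolynomial (Fin (n + 1)) (MvPolynomial (Fin M) k)) (x : Fin M → F) (u : (Σ a, Fin (ν a)) → F) : ℕ :=
  Nat.card {P : ℙ F (Fin (n + 1) → F) // (∀ G ∈ E, eval₂ (value x) P.rep G = 0) ∧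
    ∀ a, ∑ j, u ⟨a, j⟩ * eval₂ (value x) P.rep (f a j) = 0}

/-- The Betti number in degree `2 a`, for `2 a ≠ D`, of a section of dimension `D` and codimension `r` of a variety with the Betti
numbers `w j` in degree `2 j`. -/
def betti (w : ℕ → ℕ) (D r a : ℕ) : ℕ := if 2 * a < D then w a else if D < 2 * a ∧ a ≤ D then w (a + r) else 0

/-- The eigenvalues `α m x u` of the members of the family for all `(x, u)` with coordinates in the extension `F m` of degree `m` and
`Δ(x, u) ≠ 0`: their number is `b`, they are at most `q ^ (m D / 2)`, and the trace formula holds. For a family of smooth varieties of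
dimension `D` these are the properties of the eigenvalues of Frobenius on the cohomology in degree `D` (Grothendieck, Lefschetz,
Deligne). -/
structure IsFrobenius {k : Type} [Field k] (F : ℕ → Type) [∀ m, Field (F m)] [∀ m, Algebra k (F m)] {M n r : ℕ} {μ : Fin r → ℕ}
    (w : ℕ → ℕ) (D b : ℕ) (E : Set (MvPolynomial (Fin (n + 1)) (MvPolynomial (Fin M) k)))
    (f : (a : Fin r) → Fin (μ a) → MvPolynomial (Fin (n + 1)) (MvPolynomial (Fin M) k))
    (Δ : MvPolynomial (Σ a, Fin (μ a)) (MvPolynomial (Fin M) k)) (α : (m : ℕ) → (Fin M → F m) → ((Σ a, Fin (μ a)) → F m) → Multiset ℂ) : Prop where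
  card : ∀ m, 1 ≤ m → ∀ (x : Fin M → F m) (u : (Σ a, Fin (μ a)) → F m), eval₂ (value x) u Δ ≠ 0 → (α m x u).card = b
  norm : ∀ m, 1 ≤ m → ∀ (x : Fin M → F m) (u : (Σ a, Fin (μ a)) → F m), eval₂ (value x) u Δ ≠ 0 →
    ∀ a ∈ α m x u, ‖a‖ ≤ Real.sqrt (Nat.card (F m)) ^ D
  trace : ∀ m, 1 ≤ m → ∀ (x : Fin M → F m) (u : (Σ a, Fin (μ a)) → F m), eval₂ (value x) u Δ ≠ 0 →
    (memberPoints E f x u : ℂ) = ((∑ a ∈ range (D + 1), betti w D r a * (Nat.card (F m) : ℝ) ^ a : ℝ) : ℂ) + (-1) ^ D * (α m x u).sum

/-- The eigenvalues on the cohomology of a member in degree `j`. -/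
noncomputable def cohomology (w : ℕ → ℕ) (D r q : ℕ) (α : Multiset ℂ) (j : ℕ) : Multiset ℂ :=
  if j = D then α else if Even j then Multiset.replicate (betti w D r (j / 2)) ((q : ℂ) ^ (j / 2)) else 0

/-- The eigenvalues on the cohomology in degree `j` of the power with `ν` factors (Kunneth). -/
noncomputable def kunneth (H : ℕ → Multiset ℂ) : ℕ → ℕ → Multiset ℂ
  | 0, j => if j = 0 then {1} else 0
  | ν + 1, j => ∑ x ∈ antidiagonal j, (H x.1 ×ˢ kunneth H ν x.2).map (fun z => z.1 * z.2)

/-- The sum over the points `x` of `U_c` with coordinates in `F m` of the traces on the cohomology in degree `j` of the power with `ν`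
factors of the fibre, which is the member with the coefficients `c(x)` over `x`. -/
noncomputable def traceSum {k : Type} [Field k] (F : ℕ → Type) [∀ m, Field (F m)] [∀ m, Algebra k (F m)] {M : ℕ} {S : Type}
    (w : ℕ → ℕ) (D r ν j : ℕ) (Δ : MvPolynomial S (MvPolynomial (Fin M) k)) (c : S → MvPolynomial (Fin M) k)
    (α : (m : ℕ) → (Fin M → F m) → (S → F m) → Multiset ℂ) (m : ℕ) : ℂ :=
  ∑ᶠ x : {x : Fin M → F m // eval₂ (value x) (fun s => value x (c s)) Δ ≠ 0},
    (kunneth (cohomology w D r (Nat.card (F m)) (α m x.1 fun s => value x.1 (c s))) ν j).sum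

/-- The numbers `A m` are the power sums of `∏ (1 - β u) / (∏ (1 - γ u) ∏ (1 - β' u))`, where the `γ` have absolute value
`q ^ (e + 1 / 2)`, the `β` at most `q ^ e` and the `β'` at most `q ^ (e - 1 / 2)`, the characteristic polynomial of the `γ` has integer
coefficients, and the numbers of the `γ` and of the other numbers are at most `B` and `B'`. -/
structure IsLFunction (A : ℕ → ℂ) (q : ℝ) (e B : ℕ) (B' : ℝ) (γ β β' : Multiset ℂ) : Prop where
  sum : ∀ m, 1 ≤ m → A m = (γ.map fun g => g ^ m).sum - (β.map fun g => g ^ m).sum + (β'.map fun g => g ^ m).sum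
  top : ∀ g ∈ γ, ‖g‖ = q ^ e * Real.sqrt q
  mid : ∀ g ∈ β, ‖g‖ ≤ q ^ e
  low : ∀ g ∈ β', ‖g‖ ≤ q ^ e / Real.sqrt q
  int : ∃ P : Polynomial ℤ, P.map (Int.castRingHom ℂ) = (γ.map fun g => Polynomial.X - Polynomial.C g).prod
  card : γ.card ≤ B
  num : ((β.card + β'.card : ℕ) : ℝ) ≤ B'

/-- The `L`-function of the cohomology in degree `2 i + 1` of the power `V_c^ν` has at least `R (N + 1) ^ (κ - 1)` zeros `z` (counted with
multiplicity) with `|z - q ^ (i + M) ξ| ≤ q ^ (i + M) / (N + 1)`. -/
def HasZeros {k : Type} [Field k] (F : ℕ → Type) [∀ m, Field (F m)] [∀ m, Algebra k (F m)] {M : ℕ} {S : Type}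
    (w : ℕ → ℕ) (D r ν i B κ : ℕ) (B₀ : ℝ) (Δ : MvPolynomial S (MvPolynomial (Fin M) k))
    (α : (m : ℕ) → (Fin M → F m) → (S → F m) → Multiset ℂ) (N : ℕ) (ξ : ℂ) (R : ℝ) (c : S → MvPolynomial (Fin M) k) : Prop :=
  ∃ γ β β' : Multiset ℂ, IsLFunction (traceSum F w D r ν (2 * i + 1) Δ c α) (Nat.card k) (i + M) B (B₀ * (N + 1) ^ κ) γ β β' ∧
    R * (N + 1) ^ (κ - 1) ≤ ((β.filter fun z => ‖z - (((Nat.card k : ℝ) ^ (i + M) : ℝ) : ℂ) * ξ‖ * (N + 1) ≤ (Nat.card k : ℝ) ^ (i + M)).card : ℝ)

/-- The property `Q N ξ R` holds for a proportion of at most `C exp (- c₀ R)` of the families `c` of polynomials of degree at most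
`N`, for all `N`, all `R ≥ 0` and all `ξ` of absolute value one. -/
def Decays {k : Type} [Field k] {M : ℕ} {S : Type} (Q : ℕ → ℂ → ℝ → (S → MvPolynomial (Fin M) k) → Prop) : Prop :=
  ∃ C c₀ : ℝ, 0 < c₀ ∧ ∀ (N : ℕ) (ξ : ℂ) (R : ℝ), ‖ξ‖ = 1 → 0 ≤ R →
    (Set.ncard {c : S → MvPolynomial (Fin M) k | (∀ s, (c s).totalDegree ≤ N) ∧ Q N ξ R c} : ℝ) ≤
      C * Real.exp (-(c₀ * R)) * Set.ncard {c : S → MvPolynomial (Fin M) k | ∀ s, (c s).totalDegree ≤ N}

theorem kunneth_eq (H : ℕ → Multiset ℂ) (ν j : ℕ) : kunneth H ν j = Q282GP.kun H ν j := by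
  induction ν generalizing j with
  | zero => rfl
  | succ ν ih =>
    unfold kunneth Q282GP.kun
    refine sum_congr rfl fun x _ => ?_
    rw [ih]

theorem traceSum_eq {k : Type} [Field k] (F : ℕ → Type) [∀ m, Field (F m)] [∀ m, Algebra k (F m)] {M r : ℕ} {μ : Fin r → ℕ}
    (w : ℕ → ℕ) (D ν j : ℕ) (Δ : MvPolynomial (Σ a, Fin (μ a)) (MvPolynomial (Fin M) k))
    (c : (Σ a, Fin (μ a)) → MvPolynomial (Fin M) k) (α : (m : ℕ) → (Fin M → F m) → ((Σ a, Fin (μ a)) → F m) → Multiset ℂ) (m : ℕ) :
    traceSum F w D r ν j Δ c α m = Q282OR.traceSum F w D r ν j Δ c α m := by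
  unfold traceSum Q282OR.traceSum
  simp only [kunneth_eq]
  rfl

theorem many {k : Type} [Field k] (F : ℕ → Type) [∀ m, Field (F m)] [∀ m, Algebra k (F m)] {M r : ℕ} {μ : Fin r → ℕ}
    (w : ℕ → ℕ) (D ν i B κ : ℕ) (B₀ : ℝ) (Δ : MvPolynomial (Σ a, Fin (μ a)) (MvPolynomial (Fin M) k))
    (α : (m : ℕ) → (Fin M → F m) → ((Σ a, Fin (μ a)) → F m) → Multiset ℂ) (N : ℕ) (ξ : ℂ) (R : ℝ) (c : (Σ a, Fin (μ a)) → MvPolynomial (Fin M) k)
    (h : HasZeros F w D r ν i B κ B₀ Δ α N ξ R c) : Q282OR.Many F w D r ν i Δ α B₀ B κ N ξ R c := by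
  obtain ⟨γ, β, β', h1, h2⟩ := h
  refine ⟨γ, β, β', ⟨?_, h1.top, h1.mid, h1.low, h1.int, h1.card, h1.num⟩, h2⟩
  intro m hm
  rw [← traceSum_eq]
  exact h1.sum m hm

theorem family {k : Type} [Field k] (F : ℕ → Type) [∀ m, Field (F m)] [∀ m, Algebra k (F m)] {M n r : ℕ} {μ : Fin r → ℕ}
    (w : ℕ → ℕ) (D b : ℕ) (E : Set (MvPolynomial (Fin (n + 1)) (MvPolynomial (Fin M) k)))
    (f : (a : Fin r) → Fin (μ a) → MvPolynomial (Fin (n + 1)) (MvPolynomial (Fin M) k))
    (Δ : MvPolynomial (Σ a, Fin (μ a)) (MvPolynomial (Fin M) k)) (α : (m : ℕ) → (Fin M → F m) → ((Σ a, Fin (μ a)) → F m) → Multiset ℂ)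
    (h : IsFrobenius F w D b E f Δ α) : Q282OR.IsFamily F w D r b E f Δ α where
  card := h.card
  norm := h.norm
  trace m hm x u hu := by
    rw [Q282OR.zeros_pts]
    exact h.trace m hm x u hu

/-- **Exponential decay for the orders of the `L`-functions of Beilinson and Bloch.** -/
theorem result (k : Type) [Field k] [Finite k] (F : ℕ → Type) [∀ m, Field (F m)] [∀ m, Finite (F m)] [∀ m, Algebra k (F m)]
    (hF : ∀ m, 1 ≤ m → Module.finrank k (F m) = m) (M : ℕ) (hM : 1 ≤ M) (D r : ℕ) (hD : Odd D) (hr : 1 ≤ r) (μ d : Fin r → ℕ)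
    (Δ : MvPolynomial (Σ a, Fin (μ a)) (MvPolynomial (Fin M) k)) (ν : ℕ) (hν : 1 ≤ ν) (i b B κ : ℕ) (hκ : 1 ≤ κ) (B₀ : ℝ) :
    -- complete intersections in `W` through `Z`
    (∀ (n : ℕ) (E : Set (MvPolynomial (Fin (n + 1)) (MvPolynomial (Fin M) k))) (w : ℕ → ℕ) (_ : w (D + r) = 1) (C₀ : ℝ)
      (_ : ∀ m, 1 ≤ m → ∀ x : Fin M → F m, map (value x) Δ ≠ 0 →
        |(points (value x) E : ℝ) - ∑ j ∈ range (D + r + 1), w j * (Nat.card (F m) : ℝ) ^ j| ≤ C₀ * Real.sqrt (Nat.card (F m)) ^ (2 * r + D - 1))
      (J : Type) (h : J → MvPolynomial (Fin (n + 1)) (MvPolynomial (Fin M) k)) (e : J → ℕ) (_ : ∀ j, (h j).IsHomogeneous (e j))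
      (_ : ∀ j a, e j + 2 * ν ≤ d a + 1) (C₁ : ℝ)
      (_ : ∀ m, 1 ≤ m → ∀ x : Fin M → F m, map (value x) Δ ≠ 0 →
        (points (value x) (E ∪ Set.range h) : ℝ) ≤ C₁ * Real.sqrt (Nat.card (F m)) ^ (D - 1))
      (f : (a : Fin r) → Fin (μ a) → MvPolynomial (Fin (n + 1)) (MvPolynomial (Fin M) k)) (_ : ∀ a, Spans h (d a) (f a))
      (α : (m : ℕ) → (Fin M → F m) → ((Σ a, Fin (μ a)) → F m) → Multiset ℂ) (_ : IsFrobenius F w D b E f Δ α),
      Decays (HasZeros F w D r ν i B κ B₀ Δ α)) ∧
    -- complete intersections in the projective space through `s` linear subspaces of dimension `g`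
    ∀ (s g : ℕ) (_ : 2 * g ≤ D) (l : Fin s → Fin (D + r - g) → Fin (D + r + 1) → MvPolynomial (Fin M) k)
      (_ : ∀ m, 1 ≤ m → ∀ x : Fin M → F m, map (value x) Δ ≠ 0 → AreSubspaces x l) (_ : ∀ a, s + 2 * ν ≤ d a + 1)
      (f : (a : Fin r) → Fin (μ a) → MvPolynomial (Fin (D + r + 1)) (MvPolynomial (Fin M) k)) (_ : ∀ a, SpansLinear l (d a) (f a))
      (α : (m : ℕ) → (Fin M → F m) → ((Σ a, Fin (μ a)) → F m) → Multiset ℂ) (_ : IsFrobenius F (fun _ => 1) D b ∅ f Δ α),
      Decays (HasZeros F (fun _ => 1) D r ν i B κ B₀ Δ α) := by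
  have key : ∀ (w : ℕ → ℕ) (α : (m : ℕ) → (Fin M → F m) → ((Σ a, Fin (μ a)) → F m) → Multiset ℂ),
      (∃ C c₀ : ℝ, 0 < c₀ ∧ ∀ (N : ℕ) (ξ : ℂ) (R : ℝ), ‖ξ‖ = 1 → 0 ≤ R →
        (Set.ncard {c : (Σ a, Fin (μ a)) → MvPolynomial (Fin M) k | (∀ s, (c s).totalDegree ≤ N) ∧ Q282OR.Many F w D r ν i Δ α B₀ B κ N ξ R c} : ℝ) ≤
          C * Real.exp (-(c₀ * R)) * Set.ncard {c : (Σ a, Fin (μ a)) → MvPolynomial (Fin M) k | ∀ s, (c s).totalDegree ≤ N}) →
      Decays (HasZeros F w D r ν i B κ B₀ Δ α) := by
    rintro w α ⟨C, c₀, hc₀, hC⟩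
    refine ⟨C, c₀, hc₀, fun N ξ R hξ hR => le_trans ?_ (hC N ξ R hξ hR)⟩
    have hfin : {c : (Σ a, Fin (μ a)) → MvPolynomial (Fin M) k | (∀ s, (c s).totalDegree ≤ N) ∧ Q282OR.Many F w D r ν i Δ α B₀ B κ N ξ R c}.Finite :=
      (Q282OR.box_finite M N).subset fun c hc => hc.1
    have hsub : {c : (Σ a, Fin (μ a)) → MvPolynomial (Fin M) k | (∀ s, (c s).totalDegree ≤ N) ∧ HasZeros F w D r ν i B κ B₀ Δ α N ξ R c} ⊆
        {c : (Σ a, Fin (μ a)) → MvPolynomial (Fin M) k | (∀ s, (c s).totalDegree ≤ N) ∧ Q282OR.Many F w D r ν i Δ α B₀ B κ N ξ R c} :=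
      fun c hc => ⟨hc.1, many F w D ν i B κ B₀ Δ α N ξ R c hc.2⟩
    exact_mod_cast Set.ncard_le_ncard hsub hfin
  refine ⟨?_, ?_⟩
  · intro n E w hw C₀ hW J h e hh hd C₁ hZ1 f hf α hα
    exact key w α (Q282OR.decay (k := k) (A := Fin r) (ι := fun a => Fin (μ a)) D hD r hr (Fintype.card_fin r) w hw C₀ C₁ ν hν i hM
      hh hd (fun a => ⟨(hf a).hom, (hf a).mem, (hf a).gen⟩) E Δ b B κ hκ B₀ F hF hW hZ1 α (family F w D b E f Δ α hα))
  · intro s g hg l hl hd f hf α hα
    exact key _ α (Q282OR.decay_lin (k := k) (A := Fin r) (ι := fun a => Fin (μ a)) D hD r hr (Fintype.card_fin r) ν hν i hM hg l hd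
      (fun a => hf a) Δ b B κ hκ B₀ F hF hl α (family F _ D b ∅ f Δ α hα))

end Pool.Agent.Results.MP_0b9e0b_ag.LargeOrdersAreRare
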